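import Pool.Agent.helper16.LW.Spec

/-!
# Project lw: module MTX (the matrix inequality)
-/

set_option autoImplicit false

open Complex MeasureTheory
open scoped ComplexOrder

namespace Pool.Agent.LW

open Pool.Agent.ZD Pool.Agent.helper84.DM Pool.Agent.helper78.ED Pool.Agent.DH

/-- `k^(-iu)`. -/
noncomputable def MTX_e (k : ℕ) (u : ℝ) : ℂ := (k : ℂ) ^ (-((u : ℂ) * I))

theorem MTX_e_eq (k : ℕ) (hk : 1 ≤ k) (u : ℝ) :
    MTX_e k u = Complex.exp (((-(u * Real.log k) : ℝ) : ℂ) * I) := by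
  unfold MTX_e
  have hk0 : (k : ℂ) ≠ 0 := by
    have : k ≠ 0 := by omega
    exact_mod_cast this
  rw [Complex.cpow_def_of_ne_zero hk0, ← Complex.natCast_log]
  congr 1
  push_cast
  ring

theorem MTX_e_conj (k : ℕ) (hk : 1 ≤ k) (u : ℝ) :
    (starRingEnd ℂ) (MTX_e k u) = Complex.exp (((u * Real.log k : ℝ) : ℂ) * I) := by
  rw [MTX_e_eq k hk, ← Complex.exp_conj]
  congr 1
  rw [map_mul, Complex.conj_ofReal, Complex.conj_I]
  push_cast
  ring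

theorem MTX_e_sub (k : ℕ) (hk : 1 ≤ k) (u v : ℝ) :
    MTX_e k (u - v) = MTX_e k u * (starRingEnd ℂ) (MTX_e k v) := by
  rw [MTX_e_conj k hk, MTX_e_eq k hk, MTX_e_eq k hk, ← Complex.exp_add]
  congr 1
  push_cast
  ring

theorem MTX_e_norm (k : ℕ) (hk : 1 ≤ k) (u : ℝ) : ‖MTX_e k u‖ = 1 := by
  rw [MTX_e_eq k hk]
  exact Complex.norm_exp_ofReal_mul_I _

theorem MTX_e_mul (n l : ℕ) (hn : 1 ≤ n) (hl : 1 ≤ l) (u : ℝ) :
    MTX_e (n * l) u = MTX_e n u * MTX_e l u := by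
  have hnl : 1 ≤ n * l := Nat.mul_pos hn hl
  rw [MTX_e_eq _ hnl, MTX_e_eq n hn, MTX_e_eq l hl, ← Complex.exp_add]
  congr 1
  have h1 : Real.log ((n * l : ℕ) : ℝ) = Real.log n + Real.log l := by
    push_cast
    have h2 : (n : ℝ) ≠ 0 := by
      have : n ≠ 0 := by omega
      exact_mod_cast this
    have h3 : (l : ℝ) ≠ 0 := by
      have : l ≠ 0 := by omega
      exact_mod_cast this
    exact Real.log_mul h2 h3
  rw [h1]
  push_cast
  ring

/-- A Hermitian matrix with nonnegative real part of the quadratic form. -/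
theorem MTX_psd {ι : Type} [Fintype ι] (M : Matrix ι ι ℂ)
    (hH : ∀ i j, M i j = (starRingEnd ℂ) (M j i))
    (hp : ∀ x : ι → ℂ, 0 ≤ (∑ i, ∑ j, (starRingEnd ℂ) (x i) * M i j * x j).re) :
    M.PosSemidef := by
  refine Matrix.posSemidef_iff_dotProduct_mulVec.2 ⟨?_, ?_⟩
  · ext i j
    rw [Matrix.conjTranspose_apply]
    exact (hH i j).symm
  · intro x
    have h1 : star x ⬝ᵥ (M.mulVec x) = ∑ i, ∑ j, (starRingEnd ℂ) (x i) * M i j * x j := by
      unfold dotProduct Matrix.mulVec dotProduct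
      refine Finset.sum_congr rfl fun i _ => ?_
      rw [Finset.mul_sum]
      refine Finset.sum_congr rfl fun j _ => ?_
      rw [Pi.star_apply, ← mul_assoc]
      rfl
    rw [h1, Complex.nonneg_iff]
    refine ⟨hp x, ?_⟩
    have h2 : (starRingEnd ℂ) (∑ i, ∑ j, (starRingEnd ℂ) (x i) * M i j * x j) =
        ∑ i, ∑ j, (starRingEnd ℂ) (x i) * M i j * x j := by
      rw [map_sum]
      simp only [map_sum, map_mul, Complex.conj_conj]
      rw [Finset.sum_comm]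
      refine Finset.sum_congr rfl fun i _ => Finset.sum_congr rfl fun j _ => ?_
      rw [← hH i j]
      ring
    exact ((Complex.conj_eq_iff_im.1 h2)).symm

/-- The quadratic form of the kernel `f_i BX X (i-j) f_j`. -/
theorem MTX_quad {ι : Type} [Fintype ι] (X : ℝ) (f t : ι → ℝ) (x : ι → ℂ) :
    ∑ i, ∑ j, (starRingEnd ℂ) (x i) * ((f i : ℂ) * BX X (t i - t j) * (f j : ℂ)) * x j =
      ((∑ k ∈ Finset.Icc 1 ⌊64 * X⌋₊, Phi ((k : ℝ) / X) *
        ‖∑ i, (starRingEnd ℂ) (x i) * (f i : ℂ) * MTX_e k (t i)‖ ^ 2 : ℝ) : ℂ) := by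
  have h1 : ∀ i j : ι, (starRingEnd ℂ) (x i) * ((f i : ℂ) * BX X (t i - t j) * (f j : ℂ)) * x j =
      ∑ k ∈ Finset.Icc 1 ⌊64 * X⌋₊, ((Phi ((k : ℝ) / X) : ℝ) : ℂ) *
        (((starRingEnd ℂ) (x i) * (f i : ℂ) * MTX_e k (t i)) *
        (x j * (f j : ℂ) * (starRingEnd ℂ) (MTX_e k (t j)))) := by
    intro i j
    unfold BX
    rw [Finset.mul_sum, Finset.sum_mul, Finset.mul_sum, Finset.sum_mul]
    refine Finset.sum_congr rfl fun k hk => ?_
    have hk1 : 1 ≤ k := (Finset.mem_Icc.1 hk).1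
    have h2 := MTX_e_sub k hk1 (t i) (t j)
    unfold MTX_e at h2 ⊢
    rw [h2]
    ring
  simp only [h1]
  have h3 : ∀ i : ι, ∑ j, ∑ k ∈ Finset.Icc 1 ⌊64 * X⌋₊, ((Phi ((k : ℝ) / X) : ℝ) : ℂ) *
        (((starRingEnd ℂ) (x i) * (f i : ℂ) * MTX_e k (t i)) *
        (x j * (f j : ℂ) * (starRingEnd ℂ) (MTX_e k (t j)))) =
      ∑ k ∈ Finset.Icc 1 ⌊64 * X⌋₊, ((Phi ((k : ℝ) / X) : ℝ) : ℂ) *
        (((starRingEnd ℂ) (x i) * (f i : ℂ) * MTX_e k (t i)) *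
        ∑ j, (x j * (f j : ℂ) * (starRingEnd ℂ) (MTX_e k (t j)))) := by
    intro i
    rw [Finset.sum_comm]
    refine Finset.sum_congr rfl fun k _ => ?_
    rw [Finset.mul_sum, Finset.mul_sum]
  simp only [h3]
  rw [Finset.sum_comm]
  push_cast
  refine Finset.sum_congr rfl fun k _ => ?_
  rw [← Finset.mul_sum, ← Finset.sum_mul]
  congr 1
  have h4 : ∑ j, (x j * (f j : ℂ) * (starRingEnd ℂ) (MTX_e k (t j))) =
      (starRingEnd ℂ) (∑ i, (starRingEnd ℂ) (x i) * (f i : ℂ) * MTX_e k (t i)) := by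
    rw [map_sum]
    refine Finset.sum_congr rfl fun j _ => ?_
    rw [map_mul, map_mul, Complex.conj_conj, Complex.conj_ofReal]
  rw [h4, Complex.mul_conj']

/-- Cauchy-Schwarz for the inner product with `v_l = ∑ n, a n h_(n l')`. -/
theorem MTX_cs {ι : Type} [Fintype ι] (N l' : ℕ) (hl : 1 ≤ l') (a : ℕ → ℂ) (ha : Co N a)
    (f t : ι → ℝ) (v x : ι → ℂ) (hv : ∀ i, v i = (f i : ℂ) * DP N a (t i) * MTX_e l' (t i)) :
    ‖∑ i, (starRingEnd ℂ) (v i) * x i‖ ^ 2 ≤ N * ∑ n ∈ Finset.Ioc N (2 * N),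
      ‖∑ i, (starRingEnd ℂ) (x i) * (f i : ℂ) * MTX_e (n * l') (t i)‖ ^ 2 := by
  have h1 : ∑ i, (starRingEnd ℂ) (v i) * x i = ∑ n ∈ Finset.Ioc N (2 * N), (starRingEnd ℂ) (a n) *
      (starRingEnd ℂ) (∑ i, (starRingEnd ℂ) (x i) * (f i : ℂ) * MTX_e (n * l') (t i)) := by
    have h2 : ∀ i, (starRingEnd ℂ) (v i) * x i = ∑ n ∈ Finset.Ioc N (2 * N), (starRingEnd ℂ) (a n) *
        (starRingEnd ℂ) ((starRingEnd ℂ) (x i) * (f i : ℂ) * MTX_e (n * l') (t i)) := by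
      intro i
      rw [hv i]
      unfold DP
      rw [map_mul, map_mul, map_sum, Finset.mul_sum, Finset.sum_mul, Finset.sum_mul]
      refine Finset.sum_congr rfl fun n hn => ?_
      have hn1 : 1 ≤ n := by
        have := (Finset.mem_Ioc.1 hn).1
        omega
      rw [MTX_e_mul n l' hn1 hl]
      have h3 : (n : ℂ) ^ (-((t i : ℂ) * I)) = MTX_e n (t i) := rfl
      rw [h3]
      simp only [map_mul, Complex.conj_conj]
      ring
    rw [Finset.sum_congr rfl fun i _ => h2 i, Finset.sum_comm]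
    refine Finset.sum_congr rfl fun n _ => ?_
    rw [map_sum, Finset.mul_sum]
  rw [h1]
  have h4 : ‖∑ n ∈ Finset.Ioc N (2 * N), (starRingEnd ℂ) (a n) *
      (starRingEnd ℂ) (∑ i, (starRingEnd ℂ) (x i) * (f i : ℂ) * MTX_e (n * l') (t i))‖ ≤
      ∑ n ∈ Finset.Ioc N (2 * N), 1 *
        ‖∑ i, (starRingEnd ℂ) (x i) * (f i : ℂ) * MTX_e (n * l') (t i)‖ := by
    refine (norm_sum_le _ _).trans (Finset.sum_le_sum fun n hn => ?_)
    rw [norm_mul, RCLike.norm_conj, RCLike.norm_conj]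
    exact mul_le_mul_of_nonneg_right (ha n hn) (norm_nonneg _)
  have h5 := Finset.sum_mul_sq_le_sq_mul_sq (Finset.Ioc N (2 * N)) (fun _ => (1 : ℝ))
    (fun n => ‖∑ i, (starRingEnd ℂ) (x i) * (f i : ℂ) * MTX_e (n * l') (t i)‖)
  have h6 : ∑ n ∈ Finset.Ioc N (2 * N), (1 : ℝ) ^ 2 = N := by
    simp only [one_pow, Finset.sum_const, Nat.card_Ioc, nsmul_eq_mul, mul_one]
    congr 1
    omega
  rw [h6] at h5
  calc _ ≤ (∑ n ∈ Finset.Ioc N (2 * N), 1 *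
        ‖∑ i, (starRingEnd ℂ) (x i) * (f i : ℂ) * MTX_e (n * l') (t i)‖) ^ 2 :=
        pow_le_pow_left₀ (norm_nonneg _) h4 2
    _ ≤ _ := h5

/-- Representations `k = n l'`. -/
theorem MTX_rep (N L : ℕ) (τ : ℝ)
    (hτ : ∀ k : ℕ, 1 ≤ k → k ≤ 4 * N * L → d k ≤ τ) (g : ℕ → ℝ) (hg : ∀ k, 0 ≤ g k) :
    ∑ l ∈ Finset.range L, ∑ n ∈ Finset.Ioc N (2 * N), g (n * (L + 1 + l)) ≤
      τ * ∑ k ∈ Finset.Ioc (N * L) (4 * N * L), g k := by
  classical
  rw [← Finset.sum_product']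
  have hmaps : ∀ p ∈ Finset.range L ×ˢ Finset.Ioc N (2 * N),
      p.2 * (L + 1 + p.1) ∈ Finset.Ioc (N * L) (4 * N * L) := by
    intro p hp
    rw [Finset.mem_product, Finset.mem_range, Finset.mem_Ioc] at hp
    obtain ⟨h1, h2, h3⟩ := hp
    rw [Finset.mem_Ioc]
    constructor
    · calc N * L ≤ p.2 * L := Nat.mul_le_mul_right _ h2.le
        _ < p.2 * (L + 1 + p.1) := Nat.mul_lt_mul_of_pos_left (by omega) (by omega)
    · calc p.2 * (L + 1 + p.1) ≤ (2 * N) * (2 * L) := Nat.mul_le_mul h3 (by omega)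
        _ = 4 * N * L := by ring
  rw [← Finset.sum_fiberwise_of_maps_to hmaps, Finset.mul_sum]
  refine Finset.sum_le_sum fun k hk => ?_
  have hk1 := Finset.mem_Ioc.1 hk
  have hsum : ∑ p ∈ (Finset.range L ×ˢ Finset.Ioc N (2 * N)).filter
      (fun p => p.2 * (L + 1 + p.1) = k), g (p.2 * (L + 1 + p.1)) =
      (((Finset.range L ×ˢ Finset.Ioc N (2 * N)).filter
      (fun p => p.2 * (L + 1 + p.1) = k)).card : ℝ) * g k := by
    rw [Finset.sum_congr rfl (g := fun _ => g k)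
      (fun p hp => by rw [(Finset.mem_filter.1 hp).2])]
    rw [Finset.sum_const, nsmul_eq_mul]
  have hcard : (((Finset.range L ×ˢ Finset.Ioc N (2 * N)).filter
      (fun p => p.2 * (L + 1 + p.1) = k)).card : ℝ) ≤ d k := by
    unfold d
    have : ((Finset.range L ×ˢ Finset.Ioc N (2 * N)).filter
      (fun p => p.2 * (L + 1 + p.1) = k)).card ≤ k.divisors.card := by
      refine Finset.card_le_card_of_injOn (fun p => p.2) ?_ ?_
      · intro p hp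
        have hp2 := (Finset.mem_filter.1 (Finset.mem_coe.1 hp)).2
        exact Finset.mem_coe.2 (Nat.mem_divisors.2 ⟨⟨_, hp2.symm⟩, by omega⟩)
      · intro p hp q hq hpq
        have hp2 := Finset.mem_filter.1 (Finset.mem_coe.1 hp)
        have hq2 := Finset.mem_filter.1 (Finset.mem_coe.1 hq)
        have hp3 := Finset.mem_product.1 hp2.1
        have hpos : 0 < p.2 := by
          have := (Finset.mem_Ioc.1 hp3.2).1
          omega
        have hpq' : p.2 = q.2 := hpq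
        have h7 : p.2 * (L + 1 + p.1) = p.2 * (L + 1 + q.1) := by
          rw [hp2.2]
          rw [hpq']
          exact hq2.2.symm
        have h8 := Nat.eq_of_mul_eq_mul_left hpos h7
        exact Prod.ext (by omega) hpq'
    exact_mod_cast this
  have h9 : d k ≤ τ := hτ k (by omega) hk1.2
  calc _ = _ := hsum
    _ ≤ τ * g k := mul_le_mul_of_nonneg_right (hcard.trans h9) (hg k)

/-- Lower bound of the quadratic form. -/
theorem MTX_low (hPHS : PHS_stmt) (N L : ℕ) (hN : 1 ≤ N) (hL : 1 ≤ L) (g : ℕ → ℝ)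
    (hg : ∀ k, 0 ≤ g k) (K : Finset ℕ) (hK : K ⊆ Finset.Ioc (N * L) (4 * N * L)) :
    ∑ k ∈ K, g k ≤ ∑ k ∈ Finset.Icc 1 ⌊64 * ((N : ℝ) * L)⌋₊,
      Phi ((k : ℝ) / ((N : ℝ) * L)) * g k := by
  obtain ⟨-, -, hP1, hP2, -, -⟩ := hPHS
  have hX : (1 : ℝ) ≤ (N : ℝ) * L := by
    have : 1 ≤ N * L := Nat.mul_pos hN hL
    exact_mod_cast this
  have hX0 : (0 : ℝ) < (N : ℝ) * L := by linarith
  have h1 : ∑ k ∈ K, g k = ∑ k ∈ K, Phi ((k : ℝ) / ((N : ℝ) * L)) * g k := by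
    refine Finset.sum_congr rfl fun k hk => ?_
    have hk1 := Finset.mem_Ioc.1 (hK hk)
    rw [hP2 _ ?_ ?_, one_mul]
    · rw [le_div_iff₀ hX0, one_mul]
      exact_mod_cast hk1.1.le
    · rw [div_le_iff₀ hX0]
      have : (k : ℝ) ≤ ((4 * N * L : ℕ) : ℝ) := by exact_mod_cast hk1.2
      push_cast at this
      nlinarith
  rw [h1]
  refine Finset.sum_le_sum_of_subset_of_nonneg ?_ fun k _ _ => mul_nonneg (hP1 _).1 (hg k)
  intro k hk
  have hk1 := Finset.mem_Ioc.1 (hK hk)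
  rw [Finset.mem_Icc]
  refine ⟨by omega, Nat.le_floor ?_⟩
  have : (k : ℝ) ≤ ((4 * N * L : ℕ) : ℝ) := by exact_mod_cast hk1.2
  push_cast at this
  nlinarith

/-- The trace of a product of three kernels. -/
theorem MTX_tr (S : Finset ℤ) (F : ℤ → ℝ) (f : S → ℝ) (hf : ∀ i : S, f i * f i = F i)
    (α β γ : ℝ → ℂ) :
    ((Matrix.of fun i j : S => (f i : ℂ) * α (((i : ℤ) : ℝ) - ((j : ℤ) : ℝ)) * (f j : ℂ)) *
      (Matrix.of fun i j : S => (f i : ℂ) * β (((i : ℤ) : ℝ) - ((j : ℤ) : ℝ)) * (f j : ℂ)) *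
      (Matrix.of fun i j : S => (f i : ℂ) * γ (((i : ℤ) : ℝ) - ((j : ℤ) : ℝ)) * (f j : ℂ))).trace =
    ∑ j ∈ S, ∑ k ∈ S, ∑ l ∈ S, ((F j * F k * F l : ℝ) : ℂ) *
      (α ((j : ℝ) - k) * β ((k : ℝ) - l) * γ ((l : ℝ) - j)) := by
  rw [← Finset.sum_coe_sort S, Matrix.trace]
  refine Finset.sum_congr rfl fun i _ => ?_
  rw [Matrix.diag_apply, Matrix.mul_apply, ← Finset.sum_coe_sort S]
  have h1 : ∀ k : S, ∑ l ∈ S, ((F i * F k * F l : ℝ) : ℂ) *
      (α (((i : ℤ) : ℝ) - ((k : ℤ) : ℝ)) * β (((k : ℤ) : ℝ) - l) * γ ((l : ℝ) - ((i : ℤ) : ℝ))) =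
      ∑ l : S, ((F i * F k * F l : ℝ) : ℂ) *
      (α (((i : ℤ) : ℝ) - ((k : ℤ) : ℝ)) * β (((k : ℤ) : ℝ) - ((l : ℤ) : ℝ)) *
        γ (((l : ℤ) : ℝ) - ((i : ℤ) : ℝ))) := by
    intro k
    rw [← Finset.sum_coe_sort S]
  rw [Finset.sum_congr rfl fun k _ => h1 k, Finset.sum_comm]
  refine Finset.sum_congr rfl fun l _ => ?_
  rw [Matrix.mul_apply, Finset.sum_mul]
  refine Finset.sum_congr rfl fun k _ => ?_
  simp only [Matrix.of_apply]
  rw [← hf i, ← hf k, ← hf l]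
  push_cast
  ring

/-- Schur test for `D`. -/
theorem MTX_schur (hKSM : KSM_stmt) (S : Finset ℤ) (f : S → ℝ) (U B : ℝ) (hU : 0 ≤ U) (hB : 0 ≤ B)
    (hf : ∀ i, 0 ≤ f i ∧ f i ≤ U) (h : ℝ → ℂ) (hh : ∀ u, ‖h u‖ ≤ B * kap u) (x : S → ℂ) :
    (∑ i : S, ∑ j : S, (starRingEnd ℂ) (x i) *
      ((f i : ℂ) * h (((i : ℤ) : ℝ) - ((j : ℤ) : ℝ)) * (f j : ℂ)) * x j).re ≤
      5 * (U ^ 2 * B) * ∑ i, ‖x i‖ ^ 2 := by
  have hkap : ∀ i : S, ∑ j : S, kap (((i : ℤ) : ℝ) - ((j : ℤ) : ℝ)) ≤ 5 := by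
    intro i
    have h1 := (hKSM 1 (S.image fun j => (i : ℤ) - j) one_pos).1
    rw [Finset.sum_image] at h1
    · rw [Finset.sum_coe_sort S (fun j : ℤ => kap (((i : ℤ) : ℝ) - (j : ℝ)))]
      have h2 : ∑ j ∈ S, kap (((i : ℤ) : ℝ) - (j : ℝ)) =
          ∑ j ∈ S, kap (1 * (((i : ℤ) - j : ℤ) : ℝ)) := by
        refine Finset.sum_congr rfl fun j _ => ?_
        push_cast
        rw [one_mul]
      rw [h2]
      refine h1.trans ?_
      norm_num
    · intro j _ k _ hjk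
      have hjk' : (i : ℤ) - j = (i : ℤ) - k := hjk
      omega
  have hkap0 : ∀ u : ℝ, 0 ≤ kap u := by
    intro u
    unfold kap
    positivity
  have hkapsym : ∀ u v : ℝ, kap (u - v) = kap (v - u) := by
    intro u v
    unfold kap
    congr 2
    ring
  have hterm : ∀ i j : S, ‖(starRingEnd ℂ) (x i) *
      ((f i : ℂ) * h (((i : ℤ) : ℝ) - ((j : ℤ) : ℝ)) * (f j : ℂ)) * x j‖ ≤
      U ^ 2 * B * (‖x i‖ ^ 2 / 2 * kap (((i : ℤ) : ℝ) - ((j : ℤ) : ℝ)) +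
        ‖x j‖ ^ 2 / 2 * kap (((i : ℤ) : ℝ) - ((j : ℤ) : ℝ))) := by
    intro i j
    rw [norm_mul, norm_mul, norm_mul, norm_mul, RCLike.norm_conj, Complex.norm_real,
      Complex.norm_real, Real.norm_of_nonneg (hf i).1, Real.norm_of_nonneg (hf j).1]
    set κ := kap (((i : ℤ) : ℝ) - ((j : ℤ) : ℝ)) with hκ
    have h0 : 0 ≤ κ := hkap0 _
    have h1 : ‖h (((i : ℤ) : ℝ) - ((j : ℤ) : ℝ))‖ ≤ B * κ := hh _
    have h2 : f i * ‖h (((i : ℤ) : ℝ) - ((j : ℤ) : ℝ))‖ * f j ≤ U * (B * κ) * U :=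
      mul_le_mul (mul_le_mul (hf i).2 h1 (norm_nonneg _) hU) (hf j).2 (hf j).1
        (mul_nonneg hU (mul_nonneg hB h0))
    have h3 : ‖x i‖ * ‖x j‖ ≤ ‖x i‖ ^ 2 / 2 + ‖x j‖ ^ 2 / 2 := by
      nlinarith [sq_nonneg (‖x i‖ - ‖x j‖)]
    have h4 : 0 ≤ ‖x i‖ * ‖x j‖ := by positivity
    calc ‖x i‖ * (f i * ‖h (((i : ℤ) : ℝ) - ((j : ℤ) : ℝ))‖ * f j) * ‖x j‖
        = (f i * ‖h (((i : ℤ) : ℝ) - ((j : ℤ) : ℝ))‖ * f j) * (‖x i‖ * ‖x j‖) := by ring
      _ ≤ (U * (B * κ) * U) * (‖x i‖ * ‖x j‖) := mul_le_mul_of_nonneg_right h2 h4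
      _ ≤ (U * (B * κ) * U) * (‖x i‖ ^ 2 / 2 + ‖x j‖ ^ 2 / 2) :=
        mul_le_mul_of_nonneg_left h3 (by positivity)
      _ = _ := by ring
  have hre := Complex.re_le_norm (∑ i : S, ∑ j : S, (starRingEnd ℂ) (x i) *
      ((f i : ℂ) * h (((i : ℤ) : ℝ) - ((j : ℤ) : ℝ)) * (f j : ℂ)) * x j)
  refine hre.trans ?_
  refine (norm_sum_le _ _).trans ?_
  refine (Finset.sum_le_sum fun i _ => (norm_sum_le _ _).trans
    (Finset.sum_le_sum fun j _ => hterm i j)).trans ?_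
  have hsplit : ∑ i : S, ∑ j : S, U ^ 2 * B *
      (‖x i‖ ^ 2 / 2 * kap (((i : ℤ) : ℝ) - ((j : ℤ) : ℝ)) +
        ‖x j‖ ^ 2 / 2 * kap (((i : ℤ) : ℝ) - ((j : ℤ) : ℝ))) =
      U ^ 2 * B * (∑ i : S, ‖x i‖ ^ 2 / 2 * ∑ j : S, kap (((i : ℤ) : ℝ) - ((j : ℤ) : ℝ))) +
      U ^ 2 * B * (∑ i : S, ‖x i‖ ^ 2 / 2 * ∑ j : S, kap (((i : ℤ) : ℝ) - ((j : ℤ) : ℝ))) := by
    have hA : ∑ i : S, ∑ j : S, ‖x j‖ ^ 2 / 2 * kap (((i : ℤ) : ℝ) - ((j : ℤ) : ℝ)) =
        ∑ i : S, ‖x i‖ ^ 2 / 2 * ∑ j : S, kap (((i : ℤ) : ℝ) - ((j : ℤ) : ℝ)) := by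
      rw [Finset.sum_comm]
      refine Finset.sum_congr rfl fun i _ => ?_
      rw [Finset.mul_sum]
      refine Finset.sum_congr rfl fun j _ => ?_
      rw [hkapsym]
    have hB' : ∑ i : S, ∑ j : S, ‖x i‖ ^ 2 / 2 * kap (((i : ℤ) : ℝ) - ((j : ℤ) : ℝ)) =
        ∑ i : S, ‖x i‖ ^ 2 / 2 * ∑ j : S, kap (((i : ℤ) : ℝ) - ((j : ℤ) : ℝ)) := by
      refine Finset.sum_congr rfl fun i _ => ?_
      rw [Finset.mul_sum]
    calc _ = U ^ 2 * B * (∑ i : S, ∑ j : S, ‖x i‖ ^ 2 / 2 * kap (((i : ℤ) : ℝ) - ((j : ℤ) : ℝ))) +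
        U ^ 2 * B * (∑ i : S, ∑ j : S, ‖x j‖ ^ 2 / 2 * kap (((i : ℤ) : ℝ) - ((j : ℤ) : ℝ))) := by
          rw [← mul_add, ← Finset.sum_add_distrib, Finset.mul_sum]
          refine Finset.sum_congr rfl fun i _ => ?_
          rw [← Finset.sum_add_distrib, Finset.mul_sum]
      _ = _ := by rw [hA, hB']
  rw [hsplit]
  have hle : ∑ i : S, ‖x i‖ ^ 2 / 2 * ∑ j : S, kap (((i : ℤ) : ℝ) - ((j : ℤ) : ℝ)) ≤
      ∑ i : S, ‖x i‖ ^ 2 / 2 * 5 :=
    Finset.sum_le_sum fun i _ => mul_le_mul_of_nonneg_left (hkap i) (by positivity)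
  have hsum : ∑ i : S, ‖x i‖ ^ 2 / 2 * 5 = 5 / 2 * ∑ i : S, ‖x i‖ ^ 2 := by
    rw [Finset.mul_sum]
    refine Finset.sum_congr rfl fun i _ => ?_
    ring
  rw [hsum] at hle
  have hUB : 0 ≤ U ^ 2 * B := by positivity
  nlinarith [mul_le_mul_of_nonneg_left hle hUB]

theorem MTX (hSPL : SPL_stmt) (hH0 : H0B_stmt) (hPHS : PHS_stmt) (hFEJ : FEJ_stmt)
    (hKSM : KSM_stmt) : MTX_stmt := by
  obtain ⟨⟨Ch, hCh, hh0⟩, hconj0, hpos0, hconjB⟩ := hH0
  obtain ⟨-, hwj, -⟩ := hFEJ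
  refine ⟨20 * Ch, by positivity, ?_⟩
  intro J N L a U τ hJ hN hL hU ha hτ hm
  set m := mF J N a U with hmdef
  set X : ℝ := (N : ℝ) * L with hX
  have hN0 : (0 : ℝ) < N := by exact_mod_cast hN
  have hL0 : (0 : ℝ) < L := by exact_mod_cast hL
  have hX0 : 0 < X := by positivity
  have hm0 : 0 < m := lt_of_le_of_lt (by positivity) hm
  have hτ1 : 1 ≤ τ := by
    have h1 := hτ 1 le_rfl (by
      have : 0 < 4 * N * L := by positivity
      omega)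
    have h2 : d 1 = 1 := by
      unfold d
      simp
    linarith
  have hFU0 : ∀ i ∈ IJ J, 0 ≤ FU J N a U i := by
    intro i hi
    unfold FU F0
    split_ifs
    · exact mul_nonneg (hwj J i hi).1 (by positivity)
    · exact le_rfl
  have hFUU : ∀ i ∈ IJ J, FU J N a U i ≤ U ^ 2 := by
    intro i hi
    unfold FU F0
    split_ifs with h1
    · calc wj J i * ‖DP N a (i : ℝ)‖ ^ 2 ≤ 1 * U ^ 2 :=
          mul_le_mul (hwj J i hi).2 (pow_le_pow_left₀ (norm_nonneg _) h1 2) (by positivity)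
            zero_le_one
        _ = U ^ 2 := one_mul _
    · positivity
  set f : IJ J → ℝ := fun i => Real.sqrt (FU J N a U i) with hf
  have hff : ∀ i : IJ J, f i * f i = FU J N a U i := fun i =>
    Real.mul_self_sqrt (hFU0 i i.2)
  have hf0 : ∀ i, 0 ≤ f i := fun i => Real.sqrt_nonneg _
  have hfU : ∀ i, f i ≤ U := fun i => by
    rw [hf]
    exact Real.sqrt_le_iff.2 ⟨hU.le, hFUU i i.2⟩
  set t : IJ J → ℝ := fun i => ((i : ℤ) : ℝ) with ht
  set H : Matrix (IJ J) (IJ J) ℂ :=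
    Matrix.of fun i j => (f i : ℂ) * BX X (((i : ℤ) : ℝ) - ((j : ℤ) : ℝ)) * (f j : ℂ) with hHdef
  set D : Matrix (IJ J) (IJ J) ℂ :=
    Matrix.of fun i j => (f i : ℂ) * h0 X (((i : ℤ) : ℝ) - ((j : ℤ) : ℝ)) * (f j : ℂ) with hDdef
  have hHD : H - D = Matrix.of fun i j : IJ J => (f i : ℂ) * B1 X (((i : ℤ) : ℝ) - ((j : ℤ) : ℝ)) *
      (f j : ℂ) := by
    ext i j
    rw [Matrix.sub_apply, hHdef, hDdef]
    simp only [Matrix.of_apply]
    unfold B1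
    ring
  have hT3 : ((H - D) * (H - D) * (H - D)).trace = T3 J (FU J N a U) X := by
    rw [hHD, MTX_tr (IJ J) (FU J N a U) f hff]
    rfl
  have hT2 : ((H - D) * (H - D) * D).trace = T2 J (FU J N a U) X := by
    rw [hHD, hDdef, MTX_tr (IJ J) (FU J N a U) f hff]
    rfl
  -- quadratic form of H
  have hquad : ∀ x : IJ J → ℂ, (∑ i, ∑ j, (starRingEnd ℂ) (x i) * H i j * x j).re =
      ∑ k ∈ Finset.Icc 1 ⌊64 * X⌋₊, Phi ((k : ℝ) / X) *
        ‖∑ i, (starRingEnd ℂ) (x i) * (f i : ℂ) * MTX_e k (t i)‖ ^ 2 := by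
    intro x
    have h1 := MTX_quad X f t x
    have h2 : ∑ i, ∑ j, (starRingEnd ℂ) (x i) * H i j * x j =
        ∑ i, ∑ j, (starRingEnd ℂ) (x i) * ((f i : ℂ) * BX X (t i - t j) * (f j : ℂ)) * x j := rfl
    rw [h2, h1, Complex.ofReal_re]
  have hPHS' := hPHS
  obtain ⟨-, -, hP1, hP2, -, -⟩ := hPHS
  have hHpsd : H.PosSemidef := by
    refine MTX_psd H ?_ ?_
    · intro i j
      rw [hHdef]
      simp only [Matrix.of_apply, map_mul, Complex.conj_ofReal]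
      rw [← hconjB, neg_sub]
      ring
    · intro x
      rw [hquad x]
      exact Finset.sum_nonneg fun k _ => mul_nonneg (hP1 _).1 (by positivity)
  have hDpsd : D.PosSemidef := by
    refine MTX_psd D ?_ ?_
    · intro i j
      rw [hDdef]
      simp only [Matrix.of_apply, map_mul, Complex.conj_ofReal]
      rw [← hconj0, neg_sub]
      ring
    · intro x
      classical
      have h1 := hpos0 X hX0 (IJ J)
        (fun j => if h : j ∈ IJ J then (f ⟨j, h⟩ : ℂ) * x ⟨j, h⟩ else 0)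
      refine h1.trans (le_of_eq ?_)
      congr 1
      rw [← Finset.sum_coe_sort (IJ J)]
      refine Finset.sum_congr rfl fun i _ => ?_
      rw [← Finset.sum_coe_sort (IJ J)]
      refine Finset.sum_congr rfl fun j _ => ?_
      rw [dif_pos i.2, dif_pos j.2, hDdef]
      simp only [Matrix.of_apply, map_mul, Complex.conj_ofReal]
      ring
  set lam : ℝ := m / N with hlam
  have hlam0 : 0 ≤ lam := by positivity
  set v : ℕ → IJ J → ℂ := fun l i => (f i : ℂ) * DP N a (t i) * MTX_e (L + 1 + l) (t i) with hv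
  have hvnorm : ∀ l ∈ Finset.range L, ∑ i, ‖v l i‖ ^ 2 = m := by
    intro l _
    rw [hmdef]
    unfold mF
    rw [← Finset.sum_coe_sort (IJ J)]
    refine Finset.sum_congr rfl fun i _ => ?_
    rw [hv]
    simp only
    rw [norm_mul, norm_mul, MTX_e_norm _ (by omega), mul_one, Complex.norm_real,
      Real.norm_of_nonneg (hf0 i), mul_pow, sq (f i), hff i]
  have hBes : ∀ x : IJ J → ℂ, ∑ l ∈ Finset.range L,
      ‖∑ i, (starRingEnd ℂ) (v l i) * x i‖ ^ 2 ≤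
      (τ * N) * (∑ i, ∑ j, (starRingEnd ℂ) (x i) * H i j * x j).re := by
    intro x
    rw [hquad x]
    have h1 : ∑ l ∈ Finset.range L, ‖∑ i, (starRingEnd ℂ) (v l i) * x i‖ ^ 2 ≤
        ∑ l ∈ Finset.range L, N * ∑ n ∈ Finset.Ioc N (2 * N),
          ‖∑ i, (starRingEnd ℂ) (x i) * (f i : ℂ) * MTX_e (n * (L + 1 + l)) (t i)‖ ^ 2 :=
      Finset.sum_le_sum fun l _ =>
        MTX_cs N (L + 1 + l) (by omega) a ha f t (v l) x fun i => rfl
    rw [← Finset.mul_sum] at h1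
    have h2 := MTX_rep N L τ hτ
      (fun k => ‖∑ i, (starRingEnd ℂ) (x i) * (f i : ℂ) * MTX_e k (t i)‖ ^ 2)
      (fun k => by positivity)
    have h3 := MTX_low hPHS' N L hN hL
      (fun k => ‖∑ i, (starRingEnd ℂ) (x i) * (f i : ℂ) * MTX_e k (t i)‖ ^ 2)
      (fun k => by positivity) _ (subset_refl _)
    calc _ ≤ _ := h1
      _ ≤ N * (τ * ∑ k ∈ Finset.Ioc (N * L) (4 * N * L),
          ‖∑ i, (starRingEnd ℂ) (x i) * (f i : ℂ) * MTX_e k (t i)‖ ^ 2) :=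
        mul_le_mul_of_nonneg_left h2 hN0.le
      _ ≤ N * (τ * ∑ k ∈ Finset.Icc 1 ⌊64 * X⌋₊, Phi ((k : ℝ) / X) *
        ‖∑ i, (starRingEnd ℂ) (x i) * (f i : ℂ) * MTX_e k (t i)‖ ^ 2) :=
        mul_le_mul_of_nonneg_left (mul_le_mul_of_nonneg_left h3 (by linarith)) hN0.le
      _ = _ := by ring
  have hvH : ∀ l ∈ Finset.range L,
      lam * m ≤ (∑ i, ∑ j, (starRingEnd ℂ) (v l i) * H i j * v l j).re := by
    intro l hl
    have hl' := Finset.mem_range.1 hl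
    rw [hquad (v l)]
    have h1 := MTX_cs N (L + 1 + l) (by omega) a ha f t (v l) (v l) fun i => rfl
    have h2 : ∑ i, (starRingEnd ℂ) (v l i) * v l i = (m : ℂ) := by
      rw [← hvnorm l hl]
      push_cast
      refine Finset.sum_congr rfl fun i _ => ?_
      exact Complex.conj_mul' _
    rw [h2, Complex.norm_real, Real.norm_of_nonneg hm0.le] at h1
    have hinj : Set.InjOn (fun n => n * (L + 1 + l)) (Finset.Ioc N (2 * N) : Set ℕ) := by
      intro x _ y _ hxy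
      exact Nat.eq_of_mul_eq_mul_right (by omega) hxy
    have h3 := MTX_low hPHS' N L hN hL
      (fun k => ‖∑ i, (starRingEnd ℂ) (v l i) * (f i : ℂ) * MTX_e k (t i)‖ ^ 2)
      (fun k => by positivity) ((Finset.Ioc N (2 * N)).image fun n => n * (L + 1 + l)) (by
        intro k hk
        obtain ⟨n, hn, rfl⟩ := Finset.mem_image.1 hk
        rw [Finset.mem_Ioc] at hn ⊢
        constructor
        · calc N * L ≤ n * L := Nat.mul_le_mul_right _ hn.1.le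
            _ < n * (L + 1 + l) := Nat.mul_lt_mul_of_pos_left (by omega) (by omega)
        · calc n * (L + 1 + l) ≤ (2 * N) * (2 * L) := Nat.mul_le_mul hn.2 (by omega)
            _ = 4 * N * L := by ring)
    rw [Finset.sum_image hinj] at h3
    rw [hlam, div_mul_eq_mul_div, div_le_iff₀ hN0]
    calc m * m = m ^ 2 := by ring
      _ ≤ _ := h1
      _ ≤ N * ∑ k ∈ Finset.Icc 1 ⌊64 * X⌋₊, Phi ((k : ℝ) / X) *
        ‖∑ i, (starRingEnd ℂ) (v l i) * (f i : ℂ) * MTX_e k (t i)‖ ^ 2 :=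
        mul_le_mul_of_nonneg_left h3 hN0.le
      _ = _ := by ring
  have hDle : ∀ x : IJ J → ℂ, (∑ i, ∑ j, (starRingEnd ℂ) (x i) * D i j * x j).re ≤
      lam / 4 * ∑ i, ‖x i‖ ^ 2 := by
    intro x
    have h1 := MTX_schur hKSM (IJ J) f U (Ch * X) hU.le (by positivity)
      (fun i => ⟨hf0 i, hfU i⟩) (fun u => h0 X u) (fun u => hh0 X u hX0.le) x
    refine le_trans (le_of_eq rfl) (h1.trans ?_)
    refine mul_le_mul_of_nonneg_right ?_ (by positivity)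
    rw [hlam, div_div, le_div_iff₀ (by positivity), hX]
    nlinarith [hm]
  have hfin := hSPL (IJ J) H D L v m lam (τ * N) hHpsd hDpsd hlam0 (by positivity) hDle hvnorm hvH
    hBes
  rw [hT3, hT2] at hfin
  have h3 := Complex.re_le_norm (T3 J (FU J N a U) X)
  have h2 := Complex.re_le_norm (T2 J (FU J N a U) X)
  have h4 : (L : ℝ) * m ^ 3 = (N : ℝ) ^ 2 * (L * lam ^ 2 * m) := by
    rw [hlam]
    field_simp
  rw [h4]
  calc (N : ℝ) ^ 2 * (L * lam ^ 2 * m) ≤ (N : ℝ) ^ 2 * (12 * (τ * N) *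
        ((T3 J (FU J N a U) X).re + (T2 J (FU J N a U) X).re)) :=
        mul_le_mul_of_nonneg_left hfin (by positivity)
    _ ≤ (N : ℝ) ^ 2 * (12 * (τ * N) *
        (‖T3 J (FU J N a U) X‖ + ‖T2 J (FU J N a U) X‖)) := by
        refine mul_le_mul_of_nonneg_left (mul_le_mul_of_nonneg_left (add_le_add h3 h2) ?_)
          (by positivity)
        have : 0 ≤ τ := by linarith
        positivity
    _ = _ := by ring

end Pool.Agent.LW
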